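import Mathlib

namespace Pool.Agent.Results.MP_2b7cf0_al.PowCom
open Subgroup

/-- The power graph. -/
def powGraph (G : Type*) [Group G] : SimpleGraph G :=
  SimpleGraph.fromRel fun x y => ∃ m : ℤ, x = y ^ m

/-- The commuting graph. -/
def comGraph (G : Type*) [Group G] : SimpleGraph G :=
  SimpleGraph.fromRel fun x y => x * y = y * x

variable {G K : Type*} [Group G] [Finite G] [Group K] [Finite K]

lemma cyc {y a b : G} (ha : a ∈ zpowers y) (hb : b ∈ zpowers y) (h : orderOf a ∣ orderOf b) :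
    a ∈ zpowers b := by
  obtain ⟨i, rfl⟩ := mem_powers_iff_mem_zpowers.2 ha
  obtain ⟨j, rfl⟩ := mem_powers_iff_mem_zpowers.2 hb
  simp only at h ⊢
  have h1 : orderOf y ∣ i * orderOf (y ^ j) := by
    rw [orderOf_dvd_iff_pow_eq_one, pow_mul, ← orderOf_dvd_iff_pow_eq_one]; exact h
  have h2 : orderOf y = (orderOf y).gcd j * orderOf (y ^ j) := by
    rw [orderOf_pow, Nat.mul_div_cancel' (Nat.gcd_dvd_left _ _)]
  rw [h2] at h1
  obtain ⟨c, hc⟩ := Nat.dvd_of_mul_dvd_mul_right (orderOf_pos _) h1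
  have h3 : y ^ (orderOf y).gcd j ∈ zpowers (y ^ j) := by
    refine ⟨(orderOf y).gcdB j, ?_⟩
    simp only
    rw [← zpow_natCast y (Nat.gcd _ _), Nat.gcd_eq_gcd_ab, zpow_add, zpow_mul, zpow_mul,
      zpow_natCast, zpow_natCast, pow_orderOf_eq_one, one_zpow, one_mul]
  rw [hc, pow_mul]
  exact pow_mem h3 c

lemma elt (g : G) {p : ℕ} (h : p ∣ orderOf g) : ∃ x ∈ zpowers g, orderOf x = p :=
  ⟨g ^ (orderOf g / p), npow_mem_zpowers _ _, orderOf_pow_orderOf_div (orderOf_pos g).ne' h⟩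

def A (a b : G) : Prop := a ∈ zpowers b ∨ b ∈ zpowers a

omit [Finite G] in
lemma A.dvd {a b : G} (h : A a b) : orderOf a ∣ orderOf b ∨ orderOf b ∣ orderOf a :=
  h.imp orderOf_dvd_of_mem_zpowers orderOf_dvd_of_mem_zpowers

omit [Finite K] in
lemma eppo (φ : G ≃ K) (hφ : ∀ a b, A a b ↔ Commute (φ a) (φ b)) (g : G) (p q : ℕ)
    (hp : p.Prime) (hq : q.Prime) (h1 : p ∣ orderOf g) (h2 : q ∣ orderOf g) : p = q := by
  classical
  by_contra hpq
  obtain ⟨g, ⟨h1, h2⟩, hmax⟩ := Set.exists_max_image {g : G | p ∣ orderOf g ∧ q ∣ orderOf g}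
    orderOf (Set.toFinite _) ⟨g, h1, h2⟩
  have hN : ∀ y, A g y → y ∈ zpowers g := by
    rintro y (h | h)
    · have hd := orderOf_dvd_of_mem_zpowers h
      have := le_antisymm (Nat.le_of_dvd (orderOf_pos y) hd) (hmax y ⟨h1.trans hd, h2.trans hd⟩)
      exact cyc (mem_zpowers y) h (this ▸ dvd_rfl)
    · exact h
  have hcop := (Nat.coprime_primes hp hq).2 hpq
  obtain ⟨x, hx, ox⟩ := elt g h1
  obtain ⟨u, hu, ou⟩ := elt g h2
  obtain ⟨w, hw, ow⟩ := elt g (hcop.mul_dvd_of_dvd_of_dvd h1 h2)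
  have hn : 1 < orderOf g := hp.one_lt.trans_le (Nat.le_of_dvd (orderOf_pos g) h1)
  let S := insert 0 ((Finset.range (orderOf g)).filter fun k => (orderOf g).Coprime k)
  have hS : S.card = (orderOf g).totient + 1 := by
    rw [Finset.card_insert_of_notMem (by simp [hn.ne']), Nat.totient_eq_card_coprime]
  have hdom : ∀ k ∈ S, ∀ t ∈ zpowers g, Commute (φ t) (φ (g ^ k)) := by
    intro k hk t ht
    rw [← hφ]
    rcases Finset.mem_insert.1 hk with rfl | hk
    · exact Or.inr (by simp)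
    · left
      refine cyc ht (npow_mem_zpowers _ _) ?_
      rw [(Finset.mem_filter.1 hk).2.orderOf_pow]
      exact orderOf_dvd_of_mem_zpowers ht
  have hmaps : ∀ k ∈ S, φ.symm (φ x * φ (g ^ k)) ∈ ((zpowers x : Set G) \ {1}) := by
    intro k hk
    set y := φ.symm (φ x * φ (g ^ k)) with hy
    have e : φ y = φ x * φ (g ^ k) := by simp [hy]
    have tw : ∀ t ∈ zpowers g, A t y ↔ A t x := fun t ht => by
      rw [hφ, hφ, e]
      refine ⟨fun h => ?_, fun h => h.mul_right (hdom k hk t ht)⟩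
      simpa using h.mul_right (hdom k hk t ht).inv_right
    have hyg : y ∈ zpowers g := hN y ((tw g (mem_zpowers g)).2 (Or.inr hx))
    have n1 : ¬ A u y := fun h => by
      rcases ((tw u hu).1 h).dvd with h | h <;> rw [ou, ox] at h
      · exact hpq ((Nat.prime_dvd_prime_iff_eq hq hp).1 h).symm
      · exact hpq ((Nat.prime_dvd_prime_iff_eq hp hq).1 h)
    have n2 : ¬ q ∣ orderOf y := fun h => n1 (Or.inl (cyc hu hyg (ou ▸ h)))
    have n3 := ((tw w hw).2 (Or.inr (cyc hx hw (by rw [ox, ow]; exact dvd_mul_right _ _)))).dvd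
    rw [ow] at n3
    have n4 : orderOf y ∣ p := by
      rcases n3 with h | h
      · exact absurd ((dvd_mul_left _ _).trans h) n2
      · exact ((Nat.Prime.coprime_iff_not_dvd hq).2 n2).symm.dvd_of_dvd_mul_right h
    refine ⟨cyc hyg hx (ox ▸ n4), fun h => n1 (Or.inr ?_)⟩
    rw [Set.mem_singleton_iff.1 h]; exact one_mem _
  have hinj : Set.InjOn (fun k => φ.symm (φ x * φ (g ^ k))) S := by
    have hl : ∀ k ∈ S, k < orderOf g := fun k hk => by
      rcases Finset.mem_insert.1 hk with rfl | hk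
      · omega
      · exact Finset.mem_range.1 (Finset.mem_filter.1 hk).1
    intro k hk l hl' e
    exact pow_injOn_Iio_orderOf (hl k hk) (hl l hl')
      (φ.injective (mul_left_cancel (φ.symm.injective e)))
  have h3 := Set.ncard_le_ncard_of_injOn _ hmaps hinj (Set.toFinite _)
  rw [Set.ncard_coe_finset, hS, Set.ncard_sdiff_singleton_of_mem (one_mem (zpowers x))] at h3
  have h4 : (zpowers x : Set G).ncard = p := by rw [← ox, ← Nat.card_zpowers]; rfl
  have h5 := Nat.le_of_dvd (Nat.totient_pos.2 (orderOf_pos g)) (Nat.totient_dvd_of_dvd h1)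
  rw [Nat.totient_prime hp] at h5
  omega

lemma sylow (H : Subgroup K) (hH : ∀ h ∈ H, h ≠ 1 → ∀ k, Commute h k → k ∈ H) (p : ℕ)
    [Fact p.Prime] (hp : p ∣ Nat.card H) : p ^ (Nat.card K).factorization p ≤ Nat.card H := by
  obtain ⟨h, oh⟩ := exists_prime_orderOf_dvd_card' p hp
  have oh' : orderOf (h : K) = p := by rw [orderOf_coe, oh]
  have h1 : (h : K) ≠ 1 := fun e => (Fact.out : p.Prime).one_lt.ne' (by rw [← oh', e, orderOf_one])
  have hz : IsPGroup p (zpowers (h : K)) := IsPGroup.of_card (n := 1) (by simp [oh'])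
  obtain ⟨P, hP⟩ := hz.exists_le_sylow
  have hm : (h : K) ∈ (P : Subgroup K) := hP (mem_zpowers _)
  have : Nontrivial (P : Subgroup K) := ⟨⟨⟨h, hm⟩, 1, fun e => h1 (congrArg Subtype.val e)⟩⟩
  have := P.2.center_nontrivial
  obtain ⟨z, hz1⟩ := exists_ne (1 : center (P : Subgroup K))
  have hc : ∀ k ∈ (P : Subgroup K), Commute k (z.1 : K) := fun k hk =>
    congrArg Subtype.val (mem_center_iff.1 z.2 ⟨k, hk⟩)
  have hzH : (z.1 : K) ∈ H := hH h h.2 h1 _ (hc _ hm)
  have hle : (P : Subgroup K) ≤ H := fun k hk =>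
    hH _ hzH (fun e => hz1 (Subtype.ext (Subtype.ext e))) k (hc k hk).symm
  rw [← P.card_eq_multiplicity]
  exact card_le_of_le hle

lemma ppow (he : ∀ (g : G) (p q : ℕ), p.Prime → q.Prime → p ∣ orderOf g → q ∣ orderOf g → p = q)
    {g : G} {p : ℕ} (hp : p.Prime) (h : p ∣ orderOf g) : ∃ k, orderOf g = p ^ k :=
  ⟨_, Nat.eq_prime_pow_of_unique_prime_dvd (orderOf_pos g).ne' fun hd h' => he g _ _ hd hp h' h⟩

lemma cent (he : ∀ (g : G) (p q : ℕ), p.Prime → q.Prime → p ∣ orderOf g → q ∣ orderOf g → p = q)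
    {x c : G} {p : ℕ} (hp : p.Prime) (ox : orderOf x = p) (h : Commute x c) :
    ∃ k, orderOf c = p ^ k := by
  refine ⟨_, Nat.eq_prime_pow_of_unique_prime_dvd (orderOf_pos c).ne' fun {r} hr h' => ?_⟩
  by_contra hne
  obtain ⟨c', ⟨m, rfl⟩, oc⟩ := elt c h'
  have := (h.zpow_right m).orderOf_mul_eq_mul_orderOf_of_coprime
    (by rw [ox]; exact oc ▸ (Nat.coprime_primes hp hr).2 (Ne.symm hne))
  rw [ox] at this
  simp only at oc
  rw [oc] at this
  exact hne (he _ _ _ hr hp (this ▸ dvd_mul_left _ _) (this ▸ dvd_mul_right _ _))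

lemma key (φ : G ≃ K) (hφ : ∀ a b, A a b ↔ Commute (φ a) (φ b)) (h1 : φ 1 = 1) {x : G} {p : ℕ}
    (hp : p.Prime) (ox : orderOf x = p) (c : G) (hc : Commute x c) : A x c := by
  have he := eppo φ hφ
  have := Fact.mk hp
  have chain : ∀ y, x ∈ zpowers y → ∀ a ∈ zpowers y, ∀ b ∈ zpowers y, A a b := by
    intro y hy a ha b hb
    obtain ⟨k, hk⟩ := ppow he hp (ox ▸ orderOf_dvd_of_mem_zpowers hy)
    obtain ⟨i, -, hi⟩ := (Nat.dvd_prime_pow hp).1 (hk ▸ orderOf_dvd_of_mem_zpowers ha)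
    obtain ⟨j, -, hj⟩ := (Nat.dvd_prime_pow hp).1 (hk ▸ orderOf_dvd_of_mem_zpowers hb)
    rcases le_total i j with h | h
    · exact Or.inl (cyc ha hb (by rw [hi, hj]; exact pow_dvd_pow _ h))
    · exact Or.inr (cyc hb ha (by rw [hi, hj]; exact pow_dvd_pow _ h))
  have up : ∀ y, y ≠ 1 → A x y → x ∈ zpowers y := by
    rintro y hy (h | h)
    · exact h
    · rcases (Nat.dvd_prime hp).1 (ox ▸ orderOf_dvd_of_mem_zpowers h) with h' | h'
      · exact absurd (orderOf_eq_one_iff.1 h') hy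
      · exact cyc (mem_zpowers x) h (by rw [ox, h'])
  let H : Subgroup K := centralizer {φ x}
  have hH : ∀ y, φ y ∈ H ↔ A x y := fun y => by
    rw [hφ, mem_centralizer_singleton_iff]; exact ⟨fun h => h.symm, fun h => h.symm⟩
  have hcard : Nat.card {y | A x y} = Nat.card H :=
    Nat.card_congr (φ.subtypeEquiv fun y => (hH y).symm)
  have hdvd : p ∣ Nat.card {y | A x y} := by
    have : {y | A x y} = QuotientGroup.mk ⁻¹' ((QuotientGroup.mk : G → G ⧸ zpowers x) ''
        {y | A x y}) := by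
      refine Set.Subset.antisymm (Set.subset_preimage_image _ _) ?_
      rintro y ⟨z, hz, e⟩
      have hm : z⁻¹ * y ∈ zpowers x := QuotientGroup.eq.1 e
      rcases hz with h | h
      · refine chain z h x h y ?_
        simpa using mul_mem (mem_zpowers z) (zpowers_le.2 h hm)
      · right; simpa using mul_mem h hm
    rw [this, QuotientGroup.card_preimage_mk, Nat.card_zpowers, ox]
    exact dvd_mul_right _ _
  have hs := sylow H (fun h hh hne k hk => by
    obtain ⟨y, rfl⟩ := φ.surjective h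
    obtain ⟨t, rfl⟩ := φ.surjective k
    have hy : y ≠ 1 := fun e => hne (e ▸ h1)
    have hxy := up y hy ((hH y).1 hh)
    rw [hH]
    rcases (hφ _ _).2 hk with h | h
    · exact Or.inl (zpowers_le.2 h hxy)
    · exact chain y hxy x hxy t h) p (hcard ▸ hdvd)
  have hC : IsPGroup p (centralizer {x}) := IsPGroup.iff_orderOf.2 fun c => by
    rw [← orderOf_coe]
    exact cent he hp ox (mem_centralizer_singleton_iff.1 c.2).symm
  obtain ⟨k, hk⟩ := IsPGroup.iff_card.1 hC
  have hk' : k ≤ (Nat.card G).factorization p :=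
    (hp.pow_dvd_iff_le_factorization Nat.card_pos.ne').1 (hk ▸ card_subgroup_dvd_card _)
  rw [← Nat.card_congr φ, ← hcard] at hs
  have hle : (centralizer {x} : Set G).ncard ≤ {y | A x y}.ncard :=
    (hk.le.trans (Nat.pow_le_pow_right hp.pos hk')).trans hs
  have hsub : {y | A x y} ⊆ (centralizer {x} : Set G) := by
    rintro y (⟨m, rfl⟩ | ⟨m, rfl⟩)
    · exact mem_centralizer_singleton_iff.2 (Commute.self_zpow y m)
    · exact mem_centralizer_singleton_iff.2 (Commute.zpow_self x m)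
  have := Set.eq_of_subset_of_ncard_le hsub hle
  have hc' : c ∈ (centralizer {x} : Set G) := mem_centralizer_singleton_iff.2 hc.symm
  rwa [← this] at hc'

lemma fin {a x : G} {p : ℕ} (hp : p.Prime) (hx : x ∈ zpowers a) (ox : orderOf x = p)
    (h : ∀ c, Commute x c → A x c) (j : ℕ) :
    ∀ b, Commute a b → orderOf b = p ^ j → orderOf b ∣ orderOf a → b ∈ zpowers a := by
  induction j with
  | zero => intro b _ hb _; rw [orderOf_eq_one_iff.1 hb]; exact one_mem _
  | succ j ih =>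
    intro b hab hb hd
    have hpa : p ∣ orderOf a := ox ▸ orderOf_dvd_of_mem_zpowers hx
    have ob : orderOf (b ^ p) = p ^ j := by
      rw [orderOf_pow, hb, Nat.gcd_eq_right (dvd_pow_self p (by omega)), pow_succ,
        Nat.mul_div_cancel _ hp.pos]
    have h1 := ih (b ^ p) (hab.pow_right p) ob ((orderOf_pow_dvd p).trans hd)
    obtain ⟨m, hm⟩ := cyc h1 (npow_mem_zpowers a p) (by
      rw [ob, orderOf_pow, Nat.gcd_eq_right hpa, Nat.dvd_div_iff_mul_dvd hpa, ← pow_succ', ← hb]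
      exact hd)
    simp only at hm
    have hc : (b * a ^ (-m)) ^ p = 1 := by
      rw [(hab.zpow_left _).symm.mul_pow, ← hm]
      group
    have hxc : Commute x (b * a ^ (-m)) := by
      obtain ⟨k, rfl⟩ := hx
      exact (hab.zpow_left k).mul_right (Commute.zpow_zpow_self a k _)
    have h2 : b * a ^ (-m) ∈ zpowers x := by
      rcases h _ hxc with h' | h'
      · exact cyc (mem_zpowers _) h' (ox ▸ orderOf_dvd_of_pow_eq_one hc)
      · exact h'
    simpa using mul_mem (zpowers_le.2 hx h2) (zpow_mem_zpowers a m)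

lemma main (φ : G ≃ K) (hφ : ∀ a b, A a b ↔ Commute (φ a) (φ b)) (h1 : φ 1 = 1) (a b : G)
    (hab : Commute a b) : A a b := by
  wlog h : orderOf b ≤ orderOf a generalizing a b
  · exact (this b a hab.symm (le_of_not_ge h)).symm
  by_cases ha : orderOf a = 1
  · rw [orderOf_eq_one_iff.1 ha]; exact Or.inl (one_mem _)
  obtain ⟨p, hp, hd⟩ := Nat.exists_prime_and_dvd ha
  obtain ⟨x, hx, ox⟩ := elt a hd
  have hxb : Commute x b := by obtain ⟨k, rfl⟩ := hx; exact hab.zpow_left k
  obtain ⟨i, hi⟩ := ppow (eppo φ hφ) hp hd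
  obtain ⟨j, hj⟩ := cent (eppo φ hφ) hp ox hxb
  refine Or.inr (fin hp hx ox (key φ hφ h1 hp ox) j b hab hj ?_)
  rw [hi, hj] at h ⊢
  exact pow_dvd_pow _ ((Nat.pow_le_pow_iff_right hp.one_lt).1 h)

theorem result (G K : Type*) [Group G] [Finite G] [Group K] [Finite K]
    (e : powGraph G ≃g comGraph K) : powGraph G = comGraph G := by
  have hA : ∀ a b : G, (powGraph G).Adj a b ↔ a ≠ b ∧ A a b := fun a b => by
    simp only [powGraph, SimpleGraph.fromRel_adj, A, mem_zpowers_iff, eq_comm]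
  have hφ : ∀ a b, A a b ↔ Commute (e a) (e b) := fun a b => by
    by_cases h : a = b
    · subst h; exact iff_of_true (Or.inl (mem_zpowers a)) (Commute.refl _)
    · have : (comGraph K).Adj (e a) (e b) ↔ (powGraph G).Adj a b := e.map_adj_iff
      rw [hA] at this
      simp only [comGraph, SimpleGraph.fromRel_adj] at this
      have h' : e a ≠ e b := fun h' => h (e.injective h')
      exact ⟨fun k => (this.2 ⟨h, k⟩).2.elim id Eq.symm, fun k => (this.1 ⟨h', Or.inl k⟩).2⟩
  have hz : ∀ b, Commute (e 1) (e b) := fun b => (hφ 1 b).1 (Or.inl (one_mem _))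
  have hm := main (e.toEquiv.trans (Equiv.mulLeft (e 1)⁻¹)) (fun a b => by
    rw [hφ]
    change _ ↔ Commute ((e 1)⁻¹ * e a) ((e 1)⁻¹ * e b)
    constructor
    · intro h
      exact ((Commute.refl _).mul_right (hz b).inv_left).mul_left
        ((hz a).symm.inv_right.mul_right h)
    · intro h
      have h1 : Commute (e 1) ((e 1)⁻¹ * e b) := (Commute.refl _).inv_right.mul_right (hz b)
      have h2 : Commute (e a) ((e 1)⁻¹ * e b) := by simpa using h1.mul_left h
      simpa using (hz a).symm.mul_right h2) (by simp)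
  ext a b
  rw [hA, comGraph, SimpleGraph.fromRel_adj]
  refine and_congr_right fun _ => ⟨?_, fun h => hm a b (h.elim id Eq.symm)⟩
  rintro (⟨m, rfl⟩ | ⟨m, rfl⟩)
  · exact Or.inl (Commute.zpow_self b m)
  · exact Or.inl (Commute.self_zpow a m)

end Pool.Agent.Results.MP_2b7cf0_al.PowCom
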